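import Pool.Agent.R341.Powers7

set_option autoImplicit false

namespace Pool.Agent.Results.MP_596674_nt.NoParryPower

open Pool.Agent.R341.Greedy Pool.Agent.R341.Powers

/-- **No power of the real root `β_d > 1` of `x^d - x - 1`, `d ≥ 4`, is a Parry number.** -/
theorem result :
    (∀ d : ℕ, 4 ≤ d → ∃! β : ℝ, 1 < β ∧ β ^ d - β - 1 = 0) ∧
    ∀ d : ℕ, 4 ≤ d → ∀ β : ℝ, 1 < β → β ^ d - β - 1 = 0 → ∀ k : ℕ, 1 ≤ k → ¬ Parry (β ^ k) := by
  constructor
  · intro d hd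
    have hc : Continuous fun x : ℝ => x ^ d - x - 1 := by fun_prop
    have h2 : (0 : ℝ) < 2 ^ d - 2 - 1 := by
      have : (2 : ℝ) ^ 4 ≤ 2 ^ d := pow_le_pow_right₀ (by norm_num) hd
      linarith
    obtain ⟨β, hβ, hβ0⟩ := intermediate_value_Ioo (show (1 : ℝ) ≤ 2 by norm_num) hc.continuousOn
      ⟨show (1 : ℝ) ^ d - 1 - 1 < 0 by norm_num, h2⟩
    have hβ0' : β ^ d = β + 1 := by
      have : β ^ d - β - 1 = 0 := hβ0
      linarith
    refine ⟨β, ⟨hβ.1, hβ0⟩, ?_⟩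
    rintro β' ⟨h1, h0⟩
    have h0' : β' ^ d = β' + 1 := by linarith
    apply le_antisymm
    · exact beta_le (by omega) h1 h0' hβ.1.le hβ0'.ge
    · exact beta_le (by omega) hβ.1 hβ0' h1.le h0'.ge
  · intro d hd β hβ1 hβ k hk
    exact main hd hβ1 (by linarith) hk

end Pool.Agent.Results.MP_596674_nt.NoParryPower
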